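import Pool.Agent.Lib.MP_f2a48e_co.Defs
import Pool.Agent.Lib.MP_f2a48e_co.K6

set_option autoImplicit false

namespace Pool.Agent.Results.MP_f2a48e_co.TwoRows

open Pool.Agent.Lib.MP_f2a48e_co

theorem result (s : ℕ) (P : Matrix (Fin 2) (Fin s) Bool) (hP : ∀ j, ∃ x, P x j = true) :
    (Filter.Tendsto (fun n : ℕ => (ex n P : ℝ) / (n : ℝ)) Filter.atTop Filter.atTop ∧
      ∃ c₁ c₂ : ℝ, 0 < c₁ ∧ 0 < c₂ ∧ ∀ᶠ m : ℕ in Filter.atTop,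
        c₁ * √(m : ℝ) ≤ (sm m P : ℝ) ∧ (sm m P : ℝ) ≤ c₂ * √(m : ℝ)) ↔
    ∃ (r : Fin 2) (i : ℕ), 1 ≤ i ∧ i + 3 ≤ s ∧
      ∀ (x : Fin 2) (j : Fin s), P x j = true ↔ (x = r ↔ (j.val < i ∨ j.val = i + 1)) :=
  Cl.classification P hP

end Pool.Agent.Results.MP_f2a48e_co.TwoRows
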